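import Pool.Agent.K1H4.PG.Defs

set_option autoImplicit false

namespace Pool.Agent.K1H4.PG

open Filter Topology Set MeasureTheory

variable {K : Type*} [NormedAddCommGroup K] [NormedSpace ℂ K]

/-- the derivative of an orbit -/
lemma gen_iff {T : ℝ → K →L[ℂ] K} (h0 : T 0 = 1) (x y : K) :
    Gen T x y ↔ HasDerivAt (fun t => T t x) y 0 := by
  rw [hasDerivAt_iff_tendsto_slope_zero]
  unfold Gen
  simp [h0]

namespace IsC0Group

variable {T : ℝ → K →L[ℂ] K}

lemma mul_apply (hT : IsC0Group T) (s t : ℝ) (x : K) : T (s + t) x = T s (T t x) := by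
  rw [hT.add]; rfl

lemma inv (hT : IsC0Group T) (t : ℝ) : T (-t) * T t = 1 := by
  rw [← hT.add, neg_add_cancel, hT.zero]

lemma deriv_orbit (hT : IsC0Group T) {x y : K} (h : Gen T x y) (t : ℝ) :
    HasDerivAt (fun t => T t x) (T t y) t := by
  rw [gen_iff hT.zero] at h
  have h1 : HasDerivAt (fun s => T (s - t) x) y t := by
    have h2 : HasDerivAt (fun s => T s x) y (t - t) := by rwa [sub_self]
    exact h2.comp_sub_const t t
  have h3 := (T t).restrictScalars ℝ |>.hasFDerivAt.comp_hasDerivAt t h1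
  have h4 : (fun t => T t x) = ((T t).restrictScalars ℝ) ∘ (fun s => T (s - t) x) := by
    ext s
    simp only [Function.comp, ContinuousLinearMap.coe_restrictScalars']
    rw [← hT.mul_apply]
    congr 2
    ring
  rw [h4]
  exact h3

section complete

variable [CompleteSpace K]

lemma bdd (hT : IsC0Group T) (a : ℝ) : ∃ C : ℝ, 1 ≤ C ∧ ∀ t : ℝ, |t| ≤ a → ‖T t‖ ≤ C := by
  have h : ∀ x : K, ∃ C, ∀ t : Icc (-a) a, ‖T t x‖ ≤ C := by
    intro x
    obtain ⟨C, hC⟩ := (isCompact_Icc (a := -a) (b := a)).exists_bound_of_continuousOn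
      (hT.cont x).continuousOn
    exact ⟨C, fun t => hC t t.2⟩
  obtain ⟨C, hC⟩ := banach_steinhaus h
  refine ⟨max C 1, le_max_right _ _, fun t ht => ?_⟩
  exact (hC ⟨t, abs_le.1 ht⟩).trans (le_max_left _ _)

variable [Nontrivial K]

lemma norm_pos (hT : IsC0Group T) (t : ℝ) : 0 < ‖T t‖ := by
  have h1 := hT.inv t
  have h2 : (1 : ℝ) ≤ ‖T (-t)‖ * ‖T t‖ := by
    have h3 := norm_mul_le (T (-t)) (T t)
    rw [h1, norm_one] at h3
    exact h3
  by_contra h
  have h4 : ‖T t‖ = 0 := le_antisymm (not_lt.1 h) (norm_nonneg _)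
  rw [h4, mul_zero] at h2
  linarith

/-- the growth bound -/
noncomputable def gb (T : ℝ → K →L[ℂ] K) : ℕ → ℝ := fun n => Real.log ‖T n‖

lemma gb_sub (hT : IsC0Group T) : Subadditive (gb T) := by
  intro m n
  unfold gb
  rw [← Real.log_mul (hT.norm_pos _).ne' (hT.norm_pos _).ne']
  apply Real.log_le_log (hT.norm_pos _)
  push_cast
  rw [hT.add]
  exact norm_mul_le _ _

lemma gb_bdd (hT : IsC0Group T) : BddBelow (range fun n => gb T n / n) := by
  obtain ⟨C, hC1, hC⟩ := hT.bdd 1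
  have hpow : ∀ n : ℕ, ‖T (-(n : ℝ))‖ ≤ C ^ n := by
    intro n
    induction n with
    | zero => simp [hT.zero]
    | succ n ih =>
      have h1 : (-((n + 1 : ℕ) : ℝ)) = -(n : ℝ) + (-1) := by push_cast; ring
      rw [h1, hT.add, pow_succ]
      exact (norm_mul_le _ _).trans (mul_le_mul ih (hC _ (by simp)) (norm_nonneg _)
        (by positivity))
  refine ⟨-Real.log C, ?_⟩
  rintro _ ⟨n, rfl⟩
  simp only
  rcases Nat.eq_zero_or_pos n with h | h
  · subst h
    simp only [CharP.cast_eq_zero, div_zero, Left.neg_nonpos_iff]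
    exact Real.log_nonneg hC1
  · have hn : (0 : ℝ) < n := by exact_mod_cast h
    rw [le_div_iff₀ hn]
    unfold gb
    have h1 : (1 : ℝ) ≤ ‖T (-(n : ℝ))‖ * ‖T n‖ := by
      have h3 := norm_mul_le (T (-(n : ℝ))) (T n)
      rw [hT.inv, norm_one] at h3
      exact h3
    have h2 : 1 ≤ C ^ n * ‖T n‖ := h1.trans (mul_le_mul_of_nonneg_right (hpow n) (norm_nonneg _))
    have h3 := Real.log_nonneg h2
    rw [Real.log_mul (by positivity) (hT.norm_pos _).ne', Real.log_pow] at h3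
    linarith

lemma tendsto_growth (hT : IsC0Group T) :
    Tendsto (fun t : ℝ => t⁻¹ * Real.log ‖T t‖) atTop (𝓝 hT.gb_sub.lim) := by
  obtain ⟨C, hC1, hC⟩ := hT.bdd 1
  have h1 := hT.gb_sub.tendsto_lim hT.gb_bdd
  have h2 := h1.comp (tendsto_nat_floor_atTop (α := ℝ))
  have h3 : Tendsto (fun t : ℝ => ((⌊t⌋₊ : ℝ) / t)) atTop (𝓝 1) :=
    tendsto_nat_floor_div_atTop
  have h4 := h2.mul h3
  rw [mul_one] at h4
  have h5 : Tendsto (fun t : ℝ => t⁻¹ * Real.log C) atTop (𝓝 0) := by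
    have := (tendsto_inv_atTop_zero (𝕜 := ℝ)).mul_const (Real.log C)
    simpa using this
  have key : ∀ t : ℝ, 1 ≤ t → |t⁻¹ * Real.log ‖T t‖ - (gb T ⌊t⌋₊ / (⌊t⌋₊ : ℝ)) * ((⌊t⌋₊ : ℝ) / t)| ≤
      t⁻¹ * Real.log C := by
    intro t ht
    have ht0 : 0 < t := by linarith
    have hf : 0 < ⌊t⌋₊ := Nat.floor_pos.2 ht
    have hf' : (0 : ℝ) < ⌊t⌋₊ := by exact_mod_cast hf
    have e1 : t⁻¹ * Real.log ‖T t‖ - (gb T ⌊t⌋₊ / (⌊t⌋₊ : ℝ)) * ((⌊t⌋₊ : ℝ) / t) =
        t⁻¹ * (Real.log ‖T t‖ - Real.log ‖T (⌊t⌋₊ : ℝ)‖) := by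
      unfold gb
      field_simp
    rw [e1, abs_mul, abs_of_pos (inv_pos.2 ht0)]
    apply mul_le_mul_of_nonneg_left _ (inv_pos.2 ht0).le
    set r := t - ⌊t⌋₊ with hr
    have hr0 : 0 ≤ r := sub_nonneg.2 (Nat.floor_le ht0.le)
    have hr1 : r ≤ 1 := by
      have := Nat.lt_floor_add_one t
      linarith
    have a1 : ‖T t‖ ≤ ‖T (⌊t⌋₊ : ℝ)‖ * C := by
      have : t = ⌊t⌋₊ + r := by rw [hr]; ring
      rw [this, hT.add]
      refine (norm_mul_le _ _).trans ?_
      have h6 := hC r (by rw [abs_of_nonneg hr0]; exact hr1)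
      have h7 : ((⌊(⌊t⌋₊ : ℝ) + r⌋₊ : ℕ) : ℝ) = ⌊t⌋₊ := by rw [← this]
      rw [h7]
      exact mul_le_mul_of_nonneg_left h6 (norm_nonneg _)
    have a2 : ‖T (⌊t⌋₊ : ℝ)‖ ≤ ‖T t‖ * C := by
      have : (⌊t⌋₊ : ℝ) = t + (-r) := by rw [hr]; ring
      have h6 := hC (-r) (by rw [abs_neg, abs_of_nonneg hr0]; exact hr1)
      calc ‖T (⌊t⌋₊ : ℝ)‖ = ‖T (t + (-r))‖ := by rw [← this]
        _ ≤ ‖T t‖ * ‖T (-r)‖ := by rw [hT.add]; exact norm_mul_le _ _
        _ ≤ _ := mul_le_mul_of_nonneg_left h6 (norm_nonneg _)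
    have hC0 : 0 < C := by linarith
    have b1 := Real.log_le_log (hT.norm_pos _) a1
    have b2 := Real.log_le_log (hT.norm_pos _) a2
    rw [Real.log_mul (hT.norm_pos _).ne' hC0.ne'] at b1 b2
    rw [abs_le]
    constructor <;> linarith
  have h6 : Tendsto (fun t : ℝ => t⁻¹ * Real.log ‖T t‖ -
      (gb T ⌊t⌋₊ / (⌊t⌋₊ : ℝ)) * ((⌊t⌋₊ : ℝ) / t)) atTop (𝓝 0) := by
    refine squeeze_zero_norm' ?_ h5
    filter_upwards [eventually_ge_atTop 1] with t ht
    exact key t ht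
  have h7 := h6.add h4
  simpa using h7

/-- exponential bounds -/
lemma exp_bound (hT : IsC0Group T) {w : ℝ} (hw : hT.gb_sub.lim < w) :
    ∃ M : ℝ, 1 ≤ M ∧ ∀ t : ℝ, 0 ≤ t → ‖T t‖ ≤ M * Real.exp (w * t) := by
  have h1 := (hT.tendsto_growth.eventually (gt_mem_nhds hw)).and (eventually_gt_atTop 0)
  obtain ⟨a, ha⟩ := eventually_atTop.1 h1
  obtain ⟨C, hC1, hC⟩ := hT.bdd (max a 0)
  have ha0 : (0 : ℝ) ≤ max a 0 := le_max_right _ _
  refine ⟨C * Real.exp (|w| * max a 0), ?_, fun t ht => ?_⟩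
  · have : 1 ≤ Real.exp (|w| * max a 0) := Real.one_le_exp (by positivity)
    nlinarith
  · rcases le_total t (max a 0) with h | h
    · refine (hC t (by rwa [abs_of_nonneg ht])).trans ?_
      rw [mul_assoc, ← Real.exp_add]
      have : 1 ≤ Real.exp (|w| * max a 0 + w * t) := by
        apply Real.one_le_exp
        have h2 : -|w| * t ≤ w * t := mul_le_mul_of_nonneg_right (neg_abs_le w) ht
        have h3 : |w| * t ≤ |w| * max a 0 := mul_le_mul_of_nonneg_left h (abs_nonneg _)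
        linarith
      nlinarith
    · obtain ⟨h2, h3⟩ := ha t ((le_max_left _ _).trans h)
      have h4 : Real.log ‖T t‖ < w * t := by
        rw [inv_mul_lt_iff₀ h3] at h2
        linarith
      have h5 : ‖T t‖ ≤ Real.exp (w * t) := by
        rw [← Real.log_le_iff_le_exp (hT.norm_pos t)]
        exact h4.le
      refine h5.trans ?_
      have h6 : 1 ≤ Real.exp (|w| * max a 0) := Real.one_le_exp (by positivity)
      have h7 : 1 ≤ C * Real.exp (|w| * max a 0) := by nlinarith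
      exact le_mul_of_one_le_left (Real.exp_pos _).le h7

end complete

end IsC0Group

end Pool.Agent.K1H4.PG
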