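import Pool.Agent.K1H4.PG.A

set_option autoImplicit false

namespace Pool.Agent.K1H4.PG

open Filter Topology Set MeasureTheory

variable {K : Type*} [NormedAddCommGroup K] [NormedSpace ℂ K]

/-- the weighted orbit -/
noncomputable def orb (T : ℝ → K →L[ℂ] K) (z : ℂ) (x : K) (t : ℝ) : K :=
  Complex.exp (-(z * t)) • T t x

namespace IsC0Group

variable {T : ℝ → K →L[ℂ] K}

lemma orb_cont (hT : IsC0Group T) (z : ℂ) (x : K) : Continuous (orb T z x) := by
  unfold orb
  have := hT.cont x
  fun_prop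

variable [CompleteSpace K] [Nontrivial K]

lemma orb_bound (hT : IsC0Group T) {w : ℝ} (hw : hT.gb_sub.lim < w) :
    ∃ M : ℝ, 1 ≤ M ∧ ∀ (z : ℂ) (x : K) (t : ℝ), 0 ≤ t →
      ‖orb T z x t‖ ≤ M * Real.exp ((w - z.re) * t) * ‖x‖ := by
  obtain ⟨M, hM, h⟩ := hT.exp_bound hw
  refine ⟨M, hM, fun z x t ht => ?_⟩
  unfold orb
  rw [norm_smul, Complex.norm_exp]
  have h1 : (-(z * t)).re = -z.re * t := by simp
  rw [h1]
  have h2 := (T t).le_opNorm x
  have h3 := h t ht
  calc Real.exp (-z.re * t) * ‖T t x‖ ≤ Real.exp (-z.re * t) * (M * Real.exp (w * t) * ‖x‖) := by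
        gcongr
        exact h2.trans (mul_le_mul_of_nonneg_right h3 (norm_nonneg _))
    _ = M * (Real.exp (-z.re * t) * Real.exp (w * t)) * ‖x‖ := by ring
    _ = _ := by rw [← Real.exp_add]; congr 3; ring

lemma exists_w (hT : IsC0Group T) {z : ℂ} (hz : hT.gb_sub.lim < z.re) :
    ∃ w : ℝ, hT.gb_sub.lim < w ∧ w < z.re := exists_between hz

lemma orb_int (hT : IsC0Group T) {z : ℂ} (hz : hT.gb_sub.lim < z.re) (x : K) :
    IntegrableOn (orb T z x) (Ioi 0) := by
  obtain ⟨w, hw, hwz⟩ := hT.exists_w hz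
  obtain ⟨M, hM, h⟩ := hT.orb_bound hw
  have h1 : IntegrableOn (fun t : ℝ => M * Real.exp ((w - z.re) * t) * ‖x‖) (Ioi 0) :=
    ((integrableOn_exp_mul_Ioi (by linarith) 0).const_mul M).mul_const _
  refine Integrable.mono' h1 (hT.orb_cont z x).aestronglyMeasurable ?_
  rw [ae_restrict_iff' measurableSet_Ioi]
  exact Eventually.of_forall fun t ht => h z x t (le_of_lt ht)

lemma orb_tendsto (hT : IsC0Group T) {z : ℂ} (hz : hT.gb_sub.lim < z.re) (x : K) :
    Tendsto (orb T z x) atTop (𝓝 0) := by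
  obtain ⟨w, hw, hwz⟩ := hT.exists_w hz
  obtain ⟨M, hM, h⟩ := hT.orb_bound hw
  have h1 : Tendsto (fun t : ℝ => M * Real.exp ((w - z.re) * t) * ‖x‖) atTop (𝓝 0) := by
    have h2 : Tendsto (fun t : ℝ => (w - z.re) * t) atTop atBot :=
      tendsto_id.const_mul_atTop_of_neg (by linarith)
    have h3 := Real.tendsto_exp_atBot.comp h2
    have h4 := (h3.const_mul M).mul_const ‖x‖
    simpa using h4
  refine squeeze_zero_norm' ?_ h1
  filter_upwards [eventually_ge_atTop 0] with t ht
  exact h z x t ht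

/-- the Laplace transform -/
noncomputable def lap (hT : IsC0Group T) (z : ℂ) (hz : hT.gb_sub.lim < z.re) : K →L[ℂ] K :=
  LinearMap.mkContinuousOfExistsBound
    { toFun := fun x => ∫ t in Ioi (0 : ℝ), orb T z x t
      map_add' := fun x y => by
        rw [← integral_add (hT.orb_int hz x) (hT.orb_int hz y)]
        congr 1
        ext t
        simp [orb]
      map_smul' := fun c x => by
        simp only [RingHom.id_apply]
        rw [← integral_smul]
        congr 1
        ext t
        simp only [orb, map_smul]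
        rw [smul_comm] }
    (by
      obtain ⟨w, hw, hwz⟩ := hT.exists_w hz
      obtain ⟨M, hM, h⟩ := hT.orb_bound hw
      refine ⟨∫ t in Ioi (0 : ℝ), M * Real.exp ((w - z.re) * t), fun x => ?_⟩
      rw [← integral_mul_const]
      simp only [LinearMap.coe_mk, AddHom.coe_mk]
      refine norm_integral_le_of_norm_le ?_ ?_
      · exact ((integrableOn_exp_mul_Ioi (by linarith) 0).const_mul M).mul_const _
      · rw [ae_restrict_iff' measurableSet_Ioi]
        exact Eventually.of_forall fun t ht => h z x t (le_of_lt ht))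

lemma lap_apply (hT : IsC0Group T) (z : ℂ) (hz : hT.gb_sub.lim < z.re) (x : K) :
    hT.lap z hz x = ∫ t in Ioi (0 : ℝ), orb T z x t := rfl

omit [CompleteSpace K] [Nontrivial K] in
lemma shift_int (g : ℝ → K) (h : ℝ) : ∫ t in Ioi (0 : ℝ), g (t + h) = ∫ t in Ioi h, g t := by
  rw [← integral_indicator measurableSet_Ioi, ← integral_indicator measurableSet_Ioi]
  rw [← integral_add_right_eq_self ((Ioi h).indicator g) h]
  congr 1
  ext t
  simp only [indicator, mem_Ioi]
  by_cases ht : 0 < t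
  · rw [if_pos ht, if_pos (by linarith)]
  · rw [if_neg ht, if_neg (by linarith)]

lemma lap_orbit (hT : IsC0Group T) (z : ℂ) (hz : hT.gb_sub.lim < z.re) (x : K) (h : ℝ) :
    T h (hT.lap z hz x) =
      Complex.exp (z * h) • (hT.lap z hz x - ∫ t in (0 : ℝ)..h, orb T z x t) := by
  rw [lap_apply, ← ContinuousLinearMap.integral_comp_comm _ (hT.orb_int hz x)]
  have e1 : ∀ t : ℝ, T h (orb T z x t) = Complex.exp (z * h) • orb T z x (t + h) := by
    intro t
    unfold orb
    rw [map_smul, ← hT.mul_apply, smul_smul, ← Complex.exp_add]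
    congr 2
    · push_cast; ring_nf
    · rw [add_comm]
  simp only [e1]
  rw [integral_smul, shift_int]
  congr 1
  have hint : IntegrableOn (orb T z x) (Ioi h) := by
    rcases le_total 0 h with hh | hh
    · exact (hT.orb_int hz x).mono_set (Ioi_subset_Ioi hh)
    · have h1 : Ioi h = Ioc h 0 ∪ Ioi 0 := (Ioc_union_Ioi_eq_Ioi hh).symm
      rw [h1]
      refine IntegrableOn.union ?_ (hT.orb_int hz x)
      exact ((hT.orb_cont z x).continuousOn.integrableOn_Icc).mono_set Ioc_subset_Icc_self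
  rw [← intervalIntegral.integral_Ioi_sub_Ioi' (hT.orb_int hz x) hint]
  abel

lemma lap_gen (hT : IsC0Group T) (z : ℂ) (hz : hT.gb_sub.lim < z.re) (x : K) :
    Gen T (hT.lap z hz x) (z • hT.lap z hz x - x) := by
  rw [gen_iff hT.zero]
  have h1 : (fun t => T t (hT.lap z hz x)) = fun h : ℝ =>
      Complex.exp (z * h) • (hT.lap z hz x - ∫ t in (0 : ℝ)..h, orb T z x t) := by
    ext h
    exact hT.lap_orbit z hz x h
  rw [h1]
  have h2 : HasDerivAt (fun h : ℝ => ∫ t in (0 : ℝ)..h, orb T z x t) (orb T z x 0) 0 :=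
    intervalIntegral.integral_hasDerivAt_right (by simp)
      ((hT.orb_cont z x).stronglyMeasurableAtFilter _ _) (hT.orb_cont z x).continuousAt
  have h3 : HasDerivAt (fun h : ℝ => Complex.exp (z * h)) (Complex.exp (z * (0 : ℝ)) * z) 0 := by
    have h4 : HasDerivAt (fun h : ℝ => z * (h : ℂ)) z 0 := by
      have := (Complex.ofRealCLM.hasDerivAt (x := (0 : ℝ))).const_mul z
      simpa using this
    exact h4.cexp
  have h5 := h3.smul (h2.const_sub (hT.lap z hz x))
  refine h5.congr_deriv ?_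
  simp only [orb, Complex.ofReal_zero, mul_zero, Complex.exp_zero, neg_zero, one_smul,
    intervalIntegral.integral_same, sub_zero, one_mul, hT.zero, one_apply_eq_self]
  abel

lemma lap_inv (hT : IsC0Group T) (z : ℂ) (hz : hT.gb_sub.lim < z.re) (x y : K)
    (h : Gen T x y) : hT.lap z hz (z • x - y) = x := by
  have h1 : ∀ t : ℝ, HasDerivAt (orb T z x) (-orb T z (z • x - y) t) t := by
    intro t
    have h2 : HasDerivAt (fun h : ℝ => Complex.exp (-(z * h))) (Complex.exp (-(z * t)) * (-z)) t := by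
      have h4 : HasDerivAt (fun h : ℝ => -(z * (h : ℂ))) (-z) t := by
        have := (Complex.ofRealCLM.hasDerivAt (x := t)).const_mul (-z)
        simpa using this
      exact h4.cexp
    have h3 := h2.smul (hT.deriv_orbit h t)
    refine h3.congr_deriv ?_
    simp only [orb, map_sub, map_smul]
    module
  have h2 := integral_Ioi_of_hasDerivAt_of_tendsto' (a := 0) (fun t _ => h1 t)
    (hT.orb_int hz (z • x - y)).neg (hT.orb_tendsto hz x)
  rw [integral_neg, ← lap_apply hT z hz, zero_sub, neg_inj] at h2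
  rw [h2]
  simp [orb, hT.zero]

lemma in_resolvent (hT : IsC0Group T) (z : ℂ) (hz : hT.gb_sub.lim < z.re) :
    InResolventSet T z :=
  ⟨hT.lap z hz, hT.lap_gen z hz, hT.lap_inv z hz⟩

lemma lap_resolvent (hT : IsC0Group T) (z z' : ℂ) (hz : hT.gb_sub.lim < z.re)
    (hz' : hT.gb_sub.lim < z'.re) (x : K) :
    hT.lap z hz x = hT.lap z' hz' x + (z' - z) • hT.lap z hz (hT.lap z' hz' x) := by
  have h1 := hT.lap_inv z hz _ _ (hT.lap_gen z' hz' x)
  have h2 : z • hT.lap z' hz' x - (z' • hT.lap z' hz' x - x) = x - (z' - z) • hT.lap z' hz' x := by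
    module
  rw [h2, map_sub, map_smul] at h1
  exact sub_eq_iff_eq_add.1 h1

end IsC0Group

end Pool.Agent.K1H4.PG
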