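import Pool.Agent.K1H4.PG.B

set_option autoImplicit false

namespace Pool.Agent.K1H4.PG

open Filter Topology Set MeasureTheory

/-- a closed normal cone in a complex space which generates it -/
structure QCone {K : Type*} [NormedAddCommGroup K] [NormedSpace ℂ K] (Q : Set K) (c : ℝ) : Prop where
  add_mem : ∀ x ∈ Q, ∀ y ∈ Q, x + y ∈ Q
  smul_mem : ∀ r : ℝ, 0 ≤ r → ∀ x ∈ Q, r • x ∈ Q
  closed : IsClosed Q
  pos : 0 < c
  normal : ∀ x ∈ Q, ∀ y, y - x ∈ Q → ‖x‖ ≤ c * ‖y‖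
  gen : ∀ z : K, ∃ a ∈ Q, ∃ b ∈ Q, ∃ u ∈ Q, ∃ v ∈ Q, z = a - b + Complex.I • (u - v)

variable {K : Type*} [NormedAddCommGroup K] [NormedSpace ℂ K]

namespace QCone

variable {Q : Set K} {c : ℝ}

lemma convex (hQ : QCone Q c) : Convex ℝ Q := by
  intro x hx y hy a b ha hb _
  exact hQ.add_mem _ (hQ.smul_mem a ha x hx) _ (hQ.smul_mem b hb y hy)

variable [CompleteSpace K]

lemma int_mem (hQ : QCone Q c) {g : ℝ → K} (hg : IntegrableOn g (Ioi 0))
    (hgQ : ∀ t, 0 < t → g t ∈ Q) : ∫ t in Ioi (0 : ℝ), g t ∈ Q := by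
  have h1 : Tendsto (fun n : ℕ => ∫ t in (0 : ℝ)..(n + 1 : ℝ), g t) atTop
      (𝓝 (∫ t in Ioi (0 : ℝ), g t)) :=
    intervalIntegral_tendsto_integral_Ioi 0 hg
      (tendsto_atTop_add_const_right _ _ tendsto_natCast_atTop_atTop)
  refine hQ.closed.mem_of_tendsto h1 (Eventually.of_forall fun n => ?_)
  have hn : (0 : ℝ) ≤ n + 1 := by positivity
  rw [intervalIntegral.integral_of_le hn, ← measure_smul_setAverage _ (by simp)]
  apply hQ.smul_mem _ measureReal_nonneg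
  apply hQ.convex.set_average_mem hQ.closed
  · simp only [Real.volume_Ioc, sub_zero, ne_eq, ENNReal.ofReal_eq_zero, not_le]
    positivity
  · simp
  · rw [ae_restrict_iff' measurableSet_Ioc]
    exact Eventually.of_forall fun t ht => hgQ t ht.1
  · exact hg.mono_set Ioc_subset_Ioi_self

end QCone

namespace IsC0Group

variable {T : ℝ → K →L[ℂ] K} [CompleteSpace K] [Nontrivial K]

lemma phi_int (hT : IsC0Group T) {z : ℂ} (hz : hT.gb_sub.lim < z.re) (x : K) {φ : ℝ → ℝ}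
    (hφ : Continuous φ) (h1 : ∀ t, |φ t| ≤ 1) :
    IntegrableOn (fun t => φ t • orb T z x t) (Ioi 0) := by
  refine Integrable.mono (hT.orb_int hz x) ?_ ?_
  · exact (hφ.smul (hT.orb_cont z x)).aestronglyMeasurable
  · refine Eventually.of_forall fun t => ?_
    rw [norm_smul]
    exact mul_le_of_le_one_left (norm_nonneg _) (h1 t)

omit [CompleteSpace K] [Nontrivial K] in
lemma orb_real_mem {Q : Set K} {c : ℝ} (hQ : QCone Q c)
    (hpos : ∀ t, ∀ x ∈ Q, T t x ∈ Q) (l : ℝ) {x : K} (hx : x ∈ Q) (t : ℝ) :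
    orb T l x t ∈ Q := by
  unfold orb
  have h1 : Complex.exp (-((l : ℂ) * t)) = ((Real.exp (-(l * t)) : ℝ) : ℂ) := by push_cast; rfl
  rw [h1, Complex.coe_smul]
  exact hQ.smul_mem _ (Real.exp_pos _).le _ (hpos t x hx)

lemma phi_bound (hT : IsC0Group T) {Q : Set K} {c : ℝ} (hQ : QCone Q c)
    (hpos : ∀ t, ∀ x ∈ Q, T t x ∈ Q) {l : ℝ} (hl : hT.gb_sub.lim < (l : ℂ).re) {x : K} (hx : x ∈ Q)
    {φ : ℝ → ℝ} (hφ : Continuous φ) (h1 : ∀ t, |φ t| ≤ 1) :
    ‖∫ t in Ioi (0 : ℝ), φ t • orb T l x t‖ ≤ (2 * c + 1) * ‖hT.lap l hl x‖ := by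
  set v := hT.lap l hl x with hv
  set U := ∫ t in Ioi (0 : ℝ), φ t • orb T l x t with hU
  have hi := hT.phi_int hl x hφ h1
  have ho := hT.orb_int hl x
  have e1 : v + U = ∫ t in Ioi (0 : ℝ), (1 + φ t) • orb T l x t := by
    rw [hv, hU, lap_apply, ← integral_add ho hi]
    congr 1
    ext t
    simp [add_smul]
  have e2 : v - U = ∫ t in Ioi (0 : ℝ), (1 - φ t) • orb T l x t := by
    rw [hv, hU, lap_apply, ← integral_sub ho hi]
    congr 1
    ext t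
    simp [sub_smul]
  have m1 : v + U ∈ Q := by
    rw [e1]
    apply hQ.int_mem
    · refine (ho.add hi).congr (Eventually.of_forall fun t => ?_)
      simp [add_smul]
    · intro t _
      exact hQ.smul_mem _ (by linarith [(abs_le.1 (h1 t)).1]) _ (orb_real_mem hQ hpos l hx t)
  have m2 : v - U ∈ Q := by
    rw [e2]
    apply hQ.int_mem
    · refine (ho.sub hi).congr (Eventually.of_forall fun t => ?_)
      simp [sub_smul]
    · intro t _
      exact hQ.smul_mem _ (by linarith [(abs_le.1 (h1 t)).2]) _ (orb_real_mem hQ hpos l hx t)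
  have h3 := hQ.normal (v + U) m1 ((2 : ℝ) • v) (by
    have : (2 : ℝ) • v - (v + U) = v - U := by rw [two_smul]; abel
    rw [this]
    exact m2)
  rw [norm_smul, Real.norm_two] at h3
  have h4 : ‖U‖ ≤ ‖v + U‖ + ‖v‖ := by
    have : U = (v + U) - v := by abel
    calc ‖U‖ = ‖(v + U) - v‖ := by rw [← this]
      _ ≤ _ := norm_sub_le _ _
  linarith

lemma lap_shift (hT : IsC0Group T) {l m : ℝ} (hl : hT.gb_sub.lim < (l : ℂ).re)
    (hlm : hT.gb_sub.lim < ((l : ℂ) + m * Complex.I).re) (x : K) :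
    hT.lap ((l : ℂ) + m * Complex.I) hlm x = (∫ t in Ioi (0 : ℝ), Real.cos (m * t) • orb T l x t) -
      Complex.I • ∫ t in Ioi (0 : ℝ), Real.sin (m * t) • orb T l x t := by
  have hc := hT.phi_int hl x (φ := fun t => Real.cos (m * t)) (by fun_prop)
    (fun t => Real.abs_cos_le_one _)
  have hs := hT.phi_int hl x (φ := fun t => Real.sin (m * t)) (by fun_prop)
    (fun t => Real.abs_sin_le_one _)
  have hs' : IntegrableOn (fun t => Complex.I • Real.sin (m * t) • orb T l x t) (Ioi 0) :=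
    hs.smul Complex.I
  rw [lap_apply, ← integral_smul, ← integral_sub hc hs']
  congr 1
  ext t
  simp only [orb]
  have h1 : Complex.exp (-(((l : ℂ) + m * Complex.I) * t)) =
      ((Real.cos (m * t) : ℝ) - Complex.I * (Real.sin (m * t) : ℝ)) * Complex.exp (-(l * t)) := by
    have : -(((l : ℂ) + m * Complex.I) * t) = (-((m * t : ℝ) : ℂ)) * Complex.I + (-(l * t)) := by
      push_cast; ring
    rw [this, Complex.exp_add, Complex.exp_mul_I, Complex.cos_neg, Complex.sin_neg]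
    push_cast
    ring
  rw [h1, ← Complex.coe_smul, ← Complex.coe_smul]
  module

lemma lap_pos_bound (hT : IsC0Group T) {Q : Set K} {c : ℝ} (hQ : QCone Q c)
    (hpos : ∀ t, ∀ x ∈ Q, T t x ∈ Q) {l m : ℝ} (hl : hT.gb_sub.lim < (l : ℂ).re)
    (hlm : hT.gb_sub.lim < ((l : ℂ) + m * Complex.I).re) {x : K} (hx : x ∈ Q) :
    ‖hT.lap ((l : ℂ) + m * Complex.I) hlm x‖ ≤ (2 * (2 * c + 1)) * ‖hT.lap l hl x‖ := by
  rw [hT.lap_shift hl hlm x]
  have h1 := hT.phi_bound hQ hpos hl hx (φ := fun t => Real.cos (m * t)) (by fun_prop)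
    (fun t => Real.abs_cos_le_one _)
  have h2 := hT.phi_bound hQ hpos hl hx (φ := fun t => Real.sin (m * t)) (by fun_prop)
    (fun t => Real.abs_sin_le_one _)
  refine (norm_sub_le _ _).trans ?_
  rw [norm_smul, Complex.norm_I, one_mul]
  linarith

lemma lap_near (hT : IsC0Group T) {R0 : K →L[ℂ] K}
    (hR : ∀ x y, Gen T x y → R0 ((hT.gb_sub.lim : ℂ) • x - y) = x) {l : ℝ}
    (hl : hT.gb_sub.lim < (l : ℂ).re) (hd : (l - hT.gb_sub.lim) * ‖R0‖ ≤ 1 / 2) (x : K) :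
    ‖hT.lap l hl x‖ ≤ 2 * ‖R0‖ * ‖x‖ := by
  have hl' : hT.gb_sub.lim < l := by simpa using hl
  have h1 := hR _ _ (hT.lap_gen l hl x)
  set u := hT.lap l hl x with hu
  have h2 : (hT.gb_sub.lim : ℂ) • u - ((l : ℂ) • u - x) = x - ((l - hT.gb_sub.lim : ℝ) : ℂ) • u := by
    push_cast
    module
  rw [h2, map_sub, map_smul] at h1
  have h3 : ‖u‖ ≤ ‖R0‖ * ‖x‖ + (l - hT.gb_sub.lim) * (‖R0‖ * ‖u‖) := by
    calc ‖u‖ = ‖R0 x - ((l - hT.gb_sub.lim : ℝ) : ℂ) • R0 u‖ := by rw [h1]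
      _ ≤ ‖R0 x‖ + ‖((l - hT.gb_sub.lim : ℝ) : ℂ) • R0 u‖ := norm_sub_le _ _
      _ ≤ _ := by
        rw [norm_smul, Complex.norm_real, Real.norm_of_nonneg (by linarith)]
        exact add_le_add (R0.le_opNorm x)
          (mul_le_mul_of_nonneg_left (R0.le_opNorm u) (by linarith))
  nlinarith [norm_nonneg u]

/-- uniform bound of the resolvent near the line -/
lemma unif (hT : IsC0Group T) {Q : Set K} {c : ℝ} (hQ : QCone Q c)
    (hpos : ∀ t, ∀ x ∈ Q, T t x ∈ Q)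
    (hres : InResolventSet T (hT.gb_sub.lim : ℂ)) :
    ∃ δ : ℝ, 0 < δ ∧ ∃ C : ℝ, 0 ≤ C ∧ ∀ (l m : ℝ) (hlm : hT.gb_sub.lim < ((l : ℂ) + m * Complex.I).re),
      l ≤ hT.gb_sub.lim + δ → ‖hT.lap ((l : ℂ) + m * Complex.I) hlm‖ ≤ C := by
  obtain ⟨R0, -, hR⟩ := hres
  set w := hT.gb_sub.lim with hw
  set δ : ℝ := 1 / (2 * (‖R0‖ + 1)) with hδ
  have hδ0 : 0 < δ := by positivity
  have hδR : δ * ‖R0‖ ≤ 1 / 2 := by
    rw [hδ, div_mul_eq_mul_div, div_le_div_iff₀ (by positivity) (by norm_num)]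
    linarith
  refine ⟨δ, hδ0, ?_⟩
  let ι := {p : ℝ × ℝ // w < p.1 ∧ p.1 ≤ w + δ}
  have hre : ∀ p : ι, hT.gb_sub.lim < ((p.1.1 : ℂ) + p.1.2 * Complex.I).re := by
    intro p
    simpa using p.2.1
  let g : ι → K →L[ℂ] K := fun p => hT.lap ((p.1.1 : ℂ) + p.1.2 * Complex.I) (hre p)
  have hb : ∀ x ∈ Q, ∀ p : ι, ‖g p x‖ ≤ (2 * (2 * c + 1)) * (2 * ‖R0‖ * ‖x‖) := by
    intro x hx p
    have hl : hT.gb_sub.lim < ((p.1.1 : ℝ) : ℂ).re := by simpa using p.2.1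
    have h1 := hT.lap_pos_bound hQ hpos hl (hre p) hx
    have h2 := hT.lap_near hR hl (by
      have h3 : (p.1.1 - w) ≤ δ := by linarith [p.2.2]
      exact (mul_le_mul_of_nonneg_right h3 (norm_nonneg _)).trans hδR) x
    refine h1.trans ?_
    have := hQ.pos
    gcongr
  have hpt : ∀ x : K, ∃ C, ∀ p : ι, ‖g p x‖ ≤ C := by
    intro x
    obtain ⟨a, ha, b, hb', u, hu, v, hv, rfl⟩ := hQ.gen x
    refine ⟨(2 * (2 * c + 1)) * (2 * ‖R0‖ * ‖a‖) + (2 * (2 * c + 1)) * (2 * ‖R0‖ * ‖b‖) +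
      ((2 * (2 * c + 1)) * (2 * ‖R0‖ * ‖u‖) + (2 * (2 * c + 1)) * (2 * ‖R0‖ * ‖v‖)), fun p => ?_⟩
    rw [map_add, map_sub, map_smul, map_sub]
    refine (norm_add_le _ _).trans (add_le_add ?_ ?_)
    · exact (norm_sub_le _ _).trans (add_le_add (hb a ha p) (hb b hb' p))
    · rw [norm_smul, Complex.norm_I, one_mul]
      exact (norm_sub_le _ _).trans (add_le_add (hb u hu p) (hb v hv p))
  obtain ⟨C, hC⟩ := banach_steinhaus hpt
  refine ⟨max C 0, le_max_right _ _, fun l m hlm hle => ?_⟩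
  have h5 : w < l := by simpa using hlm
  exact (hC ⟨(l, m), h5, hle⟩).trans (le_max_left _ _)

end IsC0Group

end Pool.Agent.K1H4.PG
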