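import Pool.Agent.K1H4.PG.C
import Pool.Agent.TH277.HT.Pl

set_option autoImplicit false

namespace Pool.Agent.K1H4.PG

open Filter Topology Set MeasureTheory
open scoped ENNReal FourierTransform

variable {K : Type*} [NormedAddCommGroup K] [InnerProductSpace ℂ K] [CompleteSpace K]
  [Nontrivial K]

namespace IsC0Group

variable {T : ℝ → K →L[ℂ] K}

/-- Plancherel for the orbits. -/
lemma planch (hT : IsC0Group T) {l : ℝ} (hl : hT.gb_sub.lim < (l : ℂ).re) (x : K)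
    (hlm : ∀ m : ℝ, hT.gb_sub.lim < ((l : ℂ) + m * Complex.I).re) :
    ∫⁻ m : ℝ, ‖hT.lap ((l : ℂ) + ((2 * Real.pi * m : ℝ) : ℂ) * Complex.I) (hlm _) x‖ₑ ^ 2 =
      ∫⁻ t in Ioi (0 : ℝ), ‖orb T l x t‖ₑ ^ 2 := by
  set f : ℝ → K := (Ioi (0 : ℝ)).indicator (orb T l x) with hf
  have hfi : Integrable f := (hT.orb_int hl x).integrable_indicator measurableSet_Ioi
  have hf2 : MemLp f 2 := by
    rw [memLp_two_iff_integrable_sq_norm hfi.aestronglyMeasurable]
    obtain ⟨w, hw, hwl⟩ := hT.exists_w hl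
    obtain ⟨M, hM, h⟩ := hT.orb_bound hw
    have e1 : (fun t => ‖f t‖ ^ 2) = (Ioi (0 : ℝ)).indicator (fun t => ‖orb T l x t‖ ^ 2) := by
      ext t
      simp only [hf, indicator]
      split_ifs <;> simp
    rw [e1, integrable_indicator_iff measurableSet_Ioi]
    have h1 : IntegrableOn (fun t : ℝ => (M * ‖x‖) ^ 2 * Real.exp ((2 * (w - (l : ℂ).re)) * t))
        (Ioi 0) := (integrableOn_exp_mul_Ioi (by linarith) 0).const_mul _
    refine Integrable.mono' h1 ((hT.orb_cont l x).norm.pow 2).aestronglyMeasurable ?_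
    rw [ae_restrict_iff' measurableSet_Ioi]
    refine Eventually.of_forall fun t ht => ?_
    rw [Real.norm_of_nonneg (by positivity)]
    have h2 := h l x t (le_of_lt ht)
    calc ‖orb T l x t‖ ^ 2 ≤ (M * Real.exp ((w - (l : ℂ).re) * t) * ‖x‖) ^ 2 := by gcongr
      _ = _ := by
        have : Real.exp (2 * (w - (l : ℂ).re) * t) = Real.exp ((w - (l : ℂ).re) * t) ^ 2 := by
          rw [← Real.exp_nat_mul]
          congr 1
          push_cast
          ring
        rw [this]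
        ring
  have hp := Pool.Agent.TH277.HT.plancherel f hfi hf2
  have e2 : ∀ m : ℝ, 𝓕 f m =
      hT.lap ((l : ℂ) + ((2 * Real.pi * m : ℝ) : ℂ) * Complex.I) (hlm _) x := by
    intro m
    rw [Real.fourier_real_eq_integral_exp_smul, lap_apply,
      ← integral_indicator measurableSet_Ioi]
    congr 1
    ext t
    simp only [hf, indicator]
    split_ifs with h
    · unfold orb
      rw [smul_smul, ← Complex.exp_add]
      congr 2
      push_cast
      ring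
    · simp
  simp only [e2] at hp
  rw [hp, ← lintegral_indicator measurableSet_Ioi]
  congr 1
  ext t
  simp only [hf, indicator]
  split_ifs <;> simp

/-- square integrability up to the growth bound -/
lemma sq_int (hT : IsC0Group T) {δ C : ℝ} (hδ : 0 < δ) (hC0 : 0 ≤ C)
    (hC : ∀ (l m : ℝ) (hlm : hT.gb_sub.lim < ((l : ℂ) + m * Complex.I).re),
      l ≤ hT.gb_sub.lim + δ → ‖hT.lap ((l : ℂ) + m * Complex.I) hlm‖ ≤ C) :
    ∃ B : ℝ, 0 ≤ B ∧ ∀ (x : K) (l : ℝ), hT.gb_sub.lim < l → l ≤ hT.gb_sub.lim + δ →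
      ∫⁻ t in Ioi (0 : ℝ), ‖orb T l x t‖ₑ ^ 2 ≤ ENNReal.ofReal (B * ‖x‖ ^ 2) := by
  set a : ℝ := hT.gb_sub.lim + δ with ha
  have hare : hT.gb_sub.lim < (a : ℂ).re := by simp [ha, hδ]
  obtain ⟨w, hw, hwa⟩ := hT.exists_w hare
  obtain ⟨M, hM, hb⟩ := hT.orb_bound hw
  have hwa' : w < a := by simpa using hwa
  set I0 : ℝ := ∫ t in Ioi (0 : ℝ), M ^ 2 * Real.exp ((2 * (w - a)) * t) with hI0
  have hint : IntegrableOn (fun t : ℝ => M ^ 2 * Real.exp ((2 * (w - a)) * t)) (Ioi 0) :=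
    (integrableOn_exp_mul_Ioi (by linarith) 0).const_mul _
  have hI00 : 0 ≤ I0 := integral_nonneg fun t => by positivity
  refine ⟨(1 + δ * C) ^ 2 * I0, by positivity, fun x l hl hla => ?_⟩
  have hlre : hT.gb_sub.lim < (l : ℂ).re := by simpa using hl
  have hlm : ∀ m : ℝ, hT.gb_sub.lim < ((l : ℂ) + m * Complex.I).re := fun m => by simpa using hl
  have ham : ∀ m : ℝ, hT.gb_sub.lim < ((a : ℂ) + m * Complex.I).re := fun m => by
    simpa using hare
  rw [← hT.planch hlre x hlm]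
  have h1 : ∀ m : ℝ, ‖hT.lap ((l : ℂ) + m * Complex.I) (hlm m) x‖ ≤
      (1 + δ * C) * ‖hT.lap ((a : ℂ) + m * Complex.I) (ham m) x‖ := by
    intro m
    rw [hT.lap_resolvent _ _ (hlm m) (ham m) x]
    refine (norm_add_le _ _).trans ?_
    rw [norm_smul, add_mul, one_mul]
    have e1 : ((a : ℂ) + m * Complex.I - ((l : ℂ) + m * Complex.I)) = ((a - l : ℝ) : ℂ) := by
      push_cast
      ring
    rw [e1, Complex.norm_real, Real.norm_of_nonneg (by linarith)]
    have h2 := (hT.lap ((l : ℂ) + m * Complex.I) (hlm m)).le_opNorm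
      (hT.lap ((a : ℂ) + m * Complex.I) (ham m) x)
    have h3 := hC l m (hlm m) hla
    have h4 : a - l ≤ δ := by rw [ha]; linarith
    have h5 : 0 ≤ a - l := by linarith
    have h6 : ‖hT.lap ((l : ℂ) + m * Complex.I) (hlm m)
        (hT.lap ((a : ℂ) + m * Complex.I) (ham m) x)‖ ≤
        C * ‖hT.lap ((a : ℂ) + m * Complex.I) (ham m) x‖ :=
      h2.trans (mul_le_mul_of_nonneg_right h3 (norm_nonneg _))
    have h7 : (a - l) * ‖hT.lap ((l : ℂ) + m * Complex.I) (hlm m)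
        (hT.lap ((a : ℂ) + m * Complex.I) (ham m) x)‖ ≤
        δ * (C * ‖hT.lap ((a : ℂ) + m * Complex.I) (ham m) x‖) :=
      mul_le_mul h4 h6 (norm_nonneg _) hδ.le
    linarith
  calc ∫⁻ m : ℝ, ‖hT.lap ((l : ℂ) + ((2 * Real.pi * m : ℝ) : ℂ) * Complex.I) (hlm _) x‖ₑ ^ 2
      ≤ ∫⁻ m : ℝ, ENNReal.ofReal ((1 + δ * C) ^ 2) *
        ‖hT.lap ((a : ℂ) + ((2 * Real.pi * m : ℝ) : ℂ) * Complex.I) (ham _) x‖ₑ ^ 2 := by
        refine lintegral_mono fun m => ?_
        have h2 := h1 (2 * Real.pi * m)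
        simp only
        rw [← ofReal_norm, ← ofReal_norm, ← ENNReal.ofReal_pow (norm_nonneg _),
          ← ENNReal.ofReal_pow (norm_nonneg _), ← ENNReal.ofReal_mul (by positivity)]
        apply ENNReal.ofReal_le_ofReal
        rw [← mul_pow]
        gcongr
    _ = ENNReal.ofReal ((1 + δ * C) ^ 2) * ∫⁻ t in Ioi (0 : ℝ), ‖orb T a x t‖ₑ ^ 2 := by
        rw [lintegral_const_mul' _ _ ENNReal.ofReal_ne_top, hT.planch hare x ham]
    _ ≤ ENNReal.ofReal ((1 + δ * C) ^ 2) * ENNReal.ofReal (I0 * ‖x‖ ^ 2) := by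
        gcongr
        rw [hI0, ← integral_mul_const, ofReal_integral_eq_lintegral_ofReal (hint.mul_const _)
          (Eventually.of_forall fun t => by positivity)]
        refine setLIntegral_mono' measurableSet_Ioi fun t ht => ?_
        rw [← ofReal_norm, ← ENNReal.ofReal_pow (norm_nonneg _)]
        apply ENNReal.ofReal_le_ofReal
        have h2 := hb a x t (le_of_lt ht)
        rw [Complex.ofReal_re] at h2
        calc ‖orb T a x t‖ ^ 2 ≤ (M * Real.exp ((w - a) * t) * ‖x‖) ^ 2 := by gcongr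
          _ = _ := by
            have : Real.exp (2 * (w - a) * t) = Real.exp ((w - a) * t) ^ 2 := by
              rw [← Real.exp_nat_mul]
              congr 1
              push_cast
              ring
            rw [this]
            ring
    _ = _ := by
        rw [← ENNReal.ofReal_mul (by positivity)]
        congr 1
        ring

omit [CompleteSpace K] [Nontrivial K] in
lemma orb_norm (l : ℝ) (x : K) (t : ℝ) : ‖orb T l x t‖ = Real.exp (-(l * t)) * ‖T t x‖ := by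
  unfold orb
  rw [norm_smul, Complex.norm_exp]
  simp

lemma sq_int' (hT : IsC0Group T) {δ B : ℝ} (hδ : 0 < δ) (hB : 0 ≤ B)
    (h : ∀ (x : K) (l : ℝ), hT.gb_sub.lim < l → l ≤ hT.gb_sub.lim + δ →
      ∫⁻ t in Ioi (0 : ℝ), ‖orb T l x t‖ₑ ^ 2 ≤ ENNReal.ofReal (B * ‖x‖ ^ 2)) (x : K) (τ : ℝ)
    (hτ : 0 < τ) :
    ∫⁻ t in Ioc 0 τ, ‖orb T (hT.gb_sub.lim : ℂ) x t‖ₑ ^ 2 ≤
      ENNReal.ofReal (Real.exp 2 * B * ‖x‖ ^ 2) := by
  set w := hT.gb_sub.lim with hw
  set e := min δ τ⁻¹ with he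
  have he0 : 0 < e := lt_min hδ (inv_pos.2 hτ)
  have h1 := h x (w + e) (by linarith) (by linarith [min_le_left δ τ⁻¹])
  have h2 : ∀ t ∈ Ioc (0 : ℝ) τ, ‖orb T (w : ℂ) x t‖ₑ ^ 2 ≤
      ENNReal.ofReal (Real.exp 2) * ‖orb T ((w + e : ℝ) : ℂ) x t‖ₑ ^ 2 := by
    intro t ht
    rw [← ofReal_norm, ← ofReal_norm, ← ENNReal.ofReal_pow (norm_nonneg _),
      ← ENNReal.ofReal_pow (norm_nonneg _), ← ENNReal.ofReal_mul (by positivity)]
    apply ENNReal.ofReal_le_ofReal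
    rw [orb_norm, orb_norm]
    have h3 : Real.exp (-(w * t)) ≤ Real.exp 1 * Real.exp (-((w + e) * t)) := by
      rw [← Real.exp_add]
      apply Real.exp_le_exp.2
      have h4 : e * t ≤ τ⁻¹ * τ := mul_le_mul (min_le_right _ _) ht.2 ht.1.le (by positivity)
      rw [inv_mul_cancel₀ hτ.ne'] at h4
      nlinarith
    have h5 : Real.exp 2 = Real.exp 1 ^ 2 := by
      rw [← Real.exp_nat_mul]
      norm_num
    rw [h5, ← mul_pow]
    refine pow_le_pow_left₀ (by positivity) ?_ 2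
    rw [← mul_assoc]
    exact mul_le_mul_of_nonneg_right h3 (norm_nonneg _)
  calc ∫⁻ t in Ioc 0 τ, ‖orb T (w : ℂ) x t‖ₑ ^ 2
      ≤ ∫⁻ t in Ioc 0 τ, ENNReal.ofReal (Real.exp 2) * ‖orb T ((w + e : ℝ) : ℂ) x t‖ₑ ^ 2 :=
        setLIntegral_mono' measurableSet_Ioc h2
    _ ≤ ∫⁻ t in Ioi 0, ENNReal.ofReal (Real.exp 2) * ‖orb T ((w + e : ℝ) : ℂ) x t‖ₑ ^ 2 :=
        lintegral_mono_set Ioc_subset_Ioi_self
    _ = ENNReal.ofReal (Real.exp 2) * ∫⁻ t in Ioi 0, ‖orb T ((w + e : ℝ) : ℂ) x t‖ₑ ^ 2 :=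
        lintegral_const_mul' _ _ ENNReal.ofReal_ne_top
    _ ≤ ENNReal.ofReal (Real.exp 2) * ENNReal.ofReal (B * ‖x‖ ^ 2) := by gcongr
    _ = _ := by
        rw [← ENNReal.ofReal_mul (by positivity)]
        congr 1
        ring

omit [CompleteSpace K] [Nontrivial K] in
/-- one step of Datko's argument -/
lemma datko_step (hT : IsC0Group T) {w A D a τ : ℝ} {x : K} (haτ : a < τ)
    (h1 : ∀ r : ℝ, 0 ≤ r → r ≤ τ - a → Real.exp (-(w * r)) * ‖T r‖ ≤ A)
    (h2 : ∫⁻ t in Ioc a τ, ‖orb T (w : ℂ) x t‖ₑ ^ 2 ≤ ENNReal.ofReal D) (hD : 0 ≤ D) :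
    (τ - a) * ‖orb T (w : ℂ) x τ‖ ^ 2 ≤ A ^ 2 * D := by
  have h3 : ∀ t ∈ Ioc a τ, ENNReal.ofReal (‖orb T (w : ℂ) x τ‖ ^ 2) ≤
      ENNReal.ofReal (A ^ 2) * ‖orb T (w : ℂ) x t‖ₑ ^ 2 := by
    intro t ht
    rw [← ofReal_norm, ← ENNReal.ofReal_pow (norm_nonneg _),
      ← ENNReal.ofReal_mul (by positivity)]
    apply ENNReal.ofReal_le_ofReal
    rw [← mul_pow]
    gcongr
    rw [orb_norm, orb_norm]
    have e1 : τ = (τ - t) + t := by ring
    have h4 : ‖T τ x‖ ≤ ‖T (τ - t)‖ * ‖T t x‖ := by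
      conv_lhs => rw [e1, hT.mul_apply]
      exact (T (τ - t)).le_opNorm _
    have h5 : Real.exp (-(w * τ)) = Real.exp (-(w * (τ - t))) * Real.exp (-(w * t)) := by
      rw [← Real.exp_add]
      congr 1
      ring
    calc Real.exp (-(w * τ)) * ‖T τ x‖
        ≤ Real.exp (-(w * (τ - t))) * Real.exp (-(w * t)) * (‖T (τ - t)‖ * ‖T t x‖) := by
          rw [h5]
          gcongr
      _ = (Real.exp (-(w * (τ - t))) * ‖T (τ - t)‖) * (Real.exp (-(w * t)) * ‖T t x‖) := by ring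
      _ ≤ A * (Real.exp (-(w * t)) * ‖T t x‖) := by
          apply mul_le_mul_of_nonneg_right _ (by positivity)
          exact h1 _ (by linarith [ht.2]) (by linarith [ht.1])
  have h6 : ENNReal.ofReal ((τ - a) * ‖orb T (w : ℂ) x τ‖ ^ 2) ≤ ENNReal.ofReal (A ^ 2 * D) := by
    calc ENNReal.ofReal ((τ - a) * ‖orb T (w : ℂ) x τ‖ ^ 2)
        = ∫⁻ t in Ioc a τ, ENNReal.ofReal (‖orb T (w : ℂ) x τ‖ ^ 2) := by
          rw [setLIntegral_const, Real.volume_Ioc, mul_comm, ENNReal.ofReal_mul (by positivity)]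
      _ ≤ ∫⁻ t in Ioc a τ, ENNReal.ofReal (A ^ 2) * ‖orb T (w : ℂ) x t‖ₑ ^ 2 :=
          setLIntegral_mono' measurableSet_Ioc h3
      _ = ENNReal.ofReal (A ^ 2) * ∫⁻ t in Ioc a τ, ‖orb T (w : ℂ) x t‖ₑ ^ 2 :=
          lintegral_const_mul' _ _ ENNReal.ofReal_ne_top
      _ ≤ ENNReal.ofReal (A ^ 2) * ENNReal.ofReal D := by gcongr
      _ = _ := by rw [← ENNReal.ofReal_mul (by positivity)]
  rwa [ENNReal.ofReal_le_ofReal_iff (by positivity)] at h6

/-- Datko's theorem: the growth bound cannot be in the resolvent set of a positive group. -/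
lemma datko (hT : IsC0Group T) {D : ℝ} (hD : 0 ≤ D)
    (h : ∀ (x : K) (τ : ℝ), 0 < τ → ∫⁻ t in Ioc 0 τ, ‖orb T (hT.gb_sub.lim : ℂ) x t‖ₑ ^ 2 ≤
      ENNReal.ofReal (D * ‖x‖ ^ 2)) : False := by
  set w := hT.gb_sub.lim with hw
  obtain ⟨C, hC1, hC⟩ := hT.bdd 1
  set A : ℝ := Real.exp |w| * C with hA
  have hA0 : 0 ≤ A := by positivity
  have hA1 : ∀ r : ℝ, 0 ≤ r → r ≤ 1 → Real.exp (-(w * r)) * ‖T r‖ ≤ A := by
    intro r h0 h1
    have h2 : Real.exp (-(w * r)) ≤ Real.exp |w| := by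
      apply Real.exp_le_exp.2
      have h3 : -w * r ≤ |w| * 1 :=
        mul_le_mul (neg_le_abs w) h1 h0 (abs_nonneg _)
      linarith
    exact mul_le_mul h2 (hC r (by rwa [abs_of_nonneg h0])) (norm_nonneg _) (Real.exp_pos _).le
  set A' : ℝ := max A (Real.sqrt (A ^ 2 * D)) with hA'
  have hb : ∀ r : ℝ, 0 ≤ r → Real.exp (-(w * r)) * ‖T r‖ ≤ A' := by
    intro r h0
    rcases le_total r 1 with h1 | h1
    · exact (hA1 r h0 h1).trans (le_max_left _ _)
    · refine le_trans ?_ (le_max_right _ _)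
      have h2 : ∀ x : K, ‖((Real.exp (-(w * r)) : ℝ) : ℂ) • T r x‖ ≤
          Real.sqrt (A ^ 2 * D) * ‖x‖ := by
        intro x
        have h3 := hT.datko_step (w := w) (A := A) (D := D * ‖x‖ ^ 2) (a := r - 1) (τ := r) (x := x)
          (by linarith) (fun s hs hs1 => hA1 s hs (by linarith))
          ((lintegral_mono_set (Ioc_subset_Ioc_left (by linarith))).trans (h x r (by linarith)))
          (by positivity)
        rw [orb_norm] at h3
        rw [norm_smul, Complex.norm_real, Real.norm_of_nonneg (Real.exp_pos _).le]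
        refine (sq_le_sq₀ (by positivity) (by positivity)).1 ?_
        rw [mul_pow (Real.sqrt _), Real.sq_sqrt (by positivity)]
        linarith
      have h4 := ContinuousLinearMap.opNorm_le_bound (((Real.exp (-(w * r)) : ℝ) : ℂ) • T r)
        (Real.sqrt_nonneg _) h2
      rwa [norm_smul, Complex.norm_real, Real.norm_of_nonneg (Real.exp_pos _).le] at h4
  have hA'0 : 0 ≤ A' := hA0.trans (le_max_left _ _)
  obtain ⟨n, hn⟩ := exists_nat_gt (4 * (A' ^ 2 * D))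
  have hn0 : 0 < (n : ℝ) := lt_of_le_of_lt (by positivity) hn
  have hn0' : n ≠ 0 := by
    rintro rfl
    simp at hn0
  have h5 : ∀ x : K, ‖((Real.exp (-(w * n)) : ℝ) : ℂ) • T n x‖ ≤ (1 / 2) * ‖x‖ := by
    intro x
    have h3 := hT.datko_step (w := w) (A := A') (D := D * ‖x‖ ^ 2) (a := 0) (τ := n) (x := x)
      hn0 (fun s hs _ => hb s hs) (h x n hn0) (by positivity)
    rw [orb_norm, sub_zero] at h3
    rw [norm_smul, Complex.norm_real, Real.norm_of_nonneg (Real.exp_pos _).le]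
    refine (sq_le_sq₀ (by positivity) (by positivity)).1 ?_
    have h6 : (n : ℝ) * (Real.exp (-(w * n)) * ‖T n x‖) ^ 2 ≤ n * ((1 / 2) * ‖x‖) ^ 2 := by
      refine h3.trans ?_
      have h7 : 4 * (A' ^ 2 * D) * ‖x‖ ^ 2 ≤ n * ‖x‖ ^ 2 :=
        mul_le_mul_of_nonneg_right hn.le (by positivity)
      nlinarith
    exact le_of_mul_le_mul_left h6 hn0
  have h6 := ContinuousLinearMap.opNorm_le_bound (((Real.exp (-(w * n)) : ℝ) : ℂ) • T n)
    (by norm_num) h5
  rw [norm_smul, Complex.norm_real, Real.norm_of_nonneg (Real.exp_pos _).le] at h6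
  have h7 : Real.log (Real.exp (-(w * n)) * ‖T n‖) ≤ Real.log (1 / 2) :=
    Real.log_le_log (mul_pos (Real.exp_pos _) (hT.norm_pos _)) h6
  rw [Real.log_mul (Real.exp_pos _).ne' (hT.norm_pos _).ne', Real.log_exp] at h7
  have h8 : Real.log (1 / 2) < 0 := Real.log_neg (by norm_num) (by norm_num)
  have h9 := hT.gb_sub.lim_le_div hT.gb_bdd hn0'
  rw [← hw, le_div_iff₀ hn0] at h9
  unfold gb at h9
  linarith

/-- the growth bound is in the spectrum -/
lemma not_resolvent (hT : IsC0Group T) {Q : Set K} {c : ℝ} (hQ : QCone Q c)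
    (hpos : ∀ t, ∀ x ∈ Q, T t x ∈ Q) : ¬ InResolventSet T (hT.gb_sub.lim : ℂ) := by
  intro hres
  obtain ⟨δ, hδ, C, hC0, hC⟩ := hT.unif hQ hpos hres
  obtain ⟨B, hB, h⟩ := hT.sq_int hδ hC0 hC
  exact hT.datko (D := Real.exp 2 * B) (by positivity) (hT.sq_int' hδ hB h)

end IsC0Group

end Pool.Agent.K1H4.PG
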