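import Mathlib

/-!
# Positive groups on ordered Hilbert spaces: definitions
-/

set_option autoImplicit false

namespace Pool.Agent.K1H4.PG

open Filter Topology

/-- `j` identifies the complex Hilbert space `K` with the complexification `H ⊕ i H` of the real
Hilbert space `H`: every element of `K` is `j x + i j y` and `‖j x + i j y‖² = ‖x‖² + ‖y‖²`. -/
structure IsComplexification {H K : Type*} [NormedAddCommGroup H] [InnerProductSpace ℝ H]
    [NormedAddCommGroup K] [InnerProductSpace ℂ K] (j : H →ₗ[ℝ] K) : Prop where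
  norm_sq : ∀ x y : H, ‖j x + Complex.I • j y‖ ^ 2 = ‖x‖ ^ 2 + ‖y‖ ^ 2
  surj : ∀ z : K, ∃ x y : H, z = j x + Complex.I • j y

/-- `P` is a closed, normal and generating cone in `H`. -/
structure NormalGeneratingCone {H : Type*} [NormedAddCommGroup H] [InnerProductSpace ℝ H]
    (P : Set H) : Prop where
  add_mem : ∀ x ∈ P, ∀ y ∈ P, x + y ∈ P
  smul_mem : ∀ r : ℝ, 0 ≤ r → ∀ x ∈ P, r • x ∈ P
  closed : IsClosed P
  normal : ∃ c : ℝ, 0 < c ∧ ∀ x ∈ P, ∀ y : H, y - x ∈ P → ‖x‖ ≤ c * ‖y‖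
  generating : ∀ x : H, ∃ u ∈ P, ∃ v ∈ P, x = u - v

/-- A strongly continuous one-parameter group of bounded operators. -/
structure IsC0Group {K : Type*} [NormedAddCommGroup K] [NormedSpace ℂ K]
    (T : ℝ → K →L[ℂ] K) : Prop where
  zero : T 0 = 1
  add : ∀ s t : ℝ, T (s + t) = T s * T t
  cont : ∀ x : K, Continuous fun t => T t x

/-- `x` is in the domain of the generator `A` of `T` and `A x = y`:
`(T t x - x) / t → y` as `t → 0`. -/
def Gen {K : Type*} [NormedAddCommGroup K] [NormedSpace ℂ K] (T : ℝ → K →L[ℂ] K) (x y : K) : Prop :=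
  Tendsto (fun t : ℝ => t⁻¹ • (T t x - x)) (𝓝[≠] 0) (𝓝 y)

/-- `z` is in the resolvent set of the generator `A`: `z - A` has a bounded inverse `R`, that is
`R x ∈ D(A)`, `(z - A) R x = x` for all `x` and `R (z - A) x = x` for all `x ∈ D(A)`. -/
def InResolventSet {K : Type*} [NormedAddCommGroup K] [NormedSpace ℂ K] (T : ℝ → K →L[ℂ] K)
    (z : ℂ) : Prop :=
  ∃ R : K →L[ℂ] K, (∀ x, Gen T (R x) (z • R x - x)) ∧ ∀ x y, Gen T x y → R (z • x - y) = x

/-- The spectrum of the generator. -/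
def spectrumGen {K : Type*} [NormedAddCommGroup K] [NormedSpace ℂ K] (T : ℝ → K →L[ℂ] K) : Set ℂ :=
  {z | ¬ InResolventSet T z}

end Pool.Agent.K1H4.PG
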