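import Pool.Agent.K1H4.PG.D

set_option autoImplicit false

namespace Pool.Agent.K1H4.PG

open Filter Topology Set MeasureTheory

variable {H K : Type*} [NormedAddCommGroup H] [InnerProductSpace ℝ H] [CompleteSpace H]
  [NormedAddCommGroup K] [InnerProductSpace ℂ K]

omit [CompleteSpace H] in
lemma IsComplexification.norm_map {j : H →ₗ[ℝ] K} (hj : IsComplexification j) (x : H) :
    ‖j x‖ = ‖x‖ := by
  have h := hj.norm_sq x 0
  simp only [map_zero, smul_zero, add_zero, norm_zero, ne_eq, OfNat.ofNat_ne_zero,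
    not_false_eq_true, zero_pow] at h
  exact (sq_eq_sq₀ (norm_nonneg _) (norm_nonneg _)).1 h

lemma qcone {j : H →ₗ[ℝ] K} (hj : IsComplexification j) {P : Set H}
    (hP : NormalGeneratingCone P) : ∃ c, QCone (j '' P) c := by
  obtain ⟨c, hc, hn⟩ := hP.normal
  refine ⟨c, ?_, ?_, ?_, hc, ?_, ?_⟩
  · rintro _ ⟨x, hx, rfl⟩ _ ⟨y, hy, rfl⟩
    exact ⟨x + y, hP.add_mem x hx y hy, map_add j x y⟩
  · rintro r hr _ ⟨x, hx, rfl⟩
    exact ⟨r • x, hP.smul_mem r hr x hx, map_smul j r x⟩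
  · let J : H →ₗᵢ[ℝ] K := ⟨j, hj.norm_map⟩
    exact J.isometry.isClosedEmbedding.isClosedMap P hP.closed
  · rintro _ ⟨u, hu, rfl⟩ y ⟨v, hv, hy⟩
    have h1 : y = j (u + v) := by
      rw [map_add, hy]
      abel
    rw [h1, hj.norm_map, hj.norm_map]
    exact hn u hu (u + v) (by rwa [add_sub_cancel_left])
  · intro z
    obtain ⟨x, y, rfl⟩ := hj.surj z
    obtain ⟨a, ha, b, hb, rfl⟩ := hP.generating x
    obtain ⟨u, hu, v, hv, rfl⟩ := hP.generating y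
    exact ⟨j a, ⟨a, ha, rfl⟩, j b, ⟨b, hb, rfl⟩, j u, ⟨u, hu, rfl⟩, j v, ⟨v, hv, rfl⟩, by
      rw [map_sub, map_sub]⟩

theorem main [CompleteSpace K] [Nontrivial H] {j : H →ₗ[ℝ] K} (hj : IsComplexification j)
    {P : Set H} (hP : NormalGeneratingCone P) {T : ℝ → K →L[ℂ] K} (hT : IsC0Group T)
    (hpos : ∀ t : ℝ, ∀ x ∈ P, T t (j x) ∈ j '' P) :
    ∃ ω : ℝ, Tendsto (fun t : ℝ => t⁻¹ * Real.log ‖T t‖) atTop (𝓝 ω) ∧
      IsLUB (Complex.re '' spectrumGen T) ω ∧ (ω : ℂ) ∈ spectrumGen T := by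
  have hK : Nontrivial K := by
    obtain ⟨x, hx⟩ := exists_ne (0 : H)
    refine ⟨j x, 0, fun h => hx ?_⟩
    rw [← norm_eq_zero, ← hj.norm_map, h, norm_zero]
  obtain ⟨c, hQ⟩ := qcone hj hP
  have hmem : ((hT.gb_sub.lim : ℝ) : ℂ) ∈ spectrumGen T := by
    refine hT.not_resolvent hQ ?_
    rintro t _ ⟨x, hx, rfl⟩
    exact hpos t x hx
  refine ⟨hT.gb_sub.lim, hT.tendsto_growth, ⟨?_, ?_⟩, hmem⟩
  · rintro _ ⟨z, hz, rfl⟩
    by_contra h
    exact hz (hT.in_resolvent z (not_le.1 h))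
  · intro b hb
    have := hb ⟨_, hmem, rfl⟩
    simpa using this

end Pool.Agent.K1H4.PG
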